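import Mathlib

/-! Degree bounds for centers of the Mandelbrot set (MP_74088a_nt). -/

namespace Pool.Agent.H61G

open Polynomial Finset

/-- critical orbit of `x ^ 2 + c` in any commutative ring -/
def orb {R : Type*} [CommRing R] (c : R) : ℕ → R
  | 0 => 0
  | k + 1 => orb c k ^ 2 + c

theorem orb_zero {R : Type*} [CommRing R] (c : R) : orb c 0 = 0 := rfl

theorem orb_succ {R : Type*} [CommRing R] (c : R) (k : ℕ) :
    orb c (k + 1) = orb c k ^ 2 + c := rfl

theorem orb_one {R : Type*} [CommRing R] (c : R) : orb c 1 = c := by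
  simp [orb_succ, orb_zero]

theorem map_orb {R S : Type*} [CommRing R] [CommRing S] (φ : R →+* S) (c : R) (k : ℕ) :
    φ (orb c k) = orb (φ c) k := by
  induction k with
  | zero => simp [orb_zero]
  | succ k ih => simp [orb_succ, ih]

theorem orb_eq_iterate {R : Type*} [CommRing R] (c : R) (k : ℕ) :
    orb c k = (fun x : R => x ^ 2 + c)^[k] 0 := by
  induction k with
  | zero => simp [orb_zero]
  | succ k ih => rw [Function.iterate_succ_apply', ← ih, orb_succ]

theorem orb_add_period {R : Type*} [CommRing R] {c : R} {n : ℕ} (h : orb c n = 0) (k : ℕ) :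
    orb c (k + n) = orb c k := by
  induction k with
  | zero => simp [h, orb_zero]
  | succ k ih => rw [show k + 1 + n = (k + n) + 1 by ring, orb_succ, ih, orb_succ]

theorem orb_mod_period {R : Type*} [CommRing R] {c : R} {n : ℕ} (h : orb c n = 0) (k : ℕ) :
    orb c (k % n) = orb c k := by
  conv_rhs => rw [← Nat.mod_add_div k n]
  generalize k / n = q
  induction q with
  | zero => simp
  | succ q ih =>
    rw [Nat.mul_succ, ← add_assoc, orb_add_period h, ← ih]

/-- a periodic critical orbit is bounded by `2` -/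
theorem norm_orb_le {c : ℂ} {n : ℕ} (hn : 0 < n) (h : orb c n = 0) (k : ℕ) :
    ‖orb c k‖ ≤ 2 := by
  obtain ⟨k0, hk0, hmax⟩ := Finset.exists_max_image (Finset.range n) (fun k => ‖orb c k‖)
    ⟨0, Finset.mem_range.mpr hn⟩
  have hall : ∀ k, ‖orb c k‖ ≤ ‖orb c k0‖ := by
    intro k
    rw [← orb_mod_period h k]
    exact hmax _ (Finset.mem_range.mpr (Nat.mod_lt _ hn))
  have h1 : ‖c‖ ≤ ‖orb c k0‖ := by
    have := hall 1
    rwa [orb_one] at this
  have h2 : ‖orb c k0‖ ^ 2 - ‖c‖ ≤ ‖orb c k0‖ := by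
    have h3 := hall (k0 + 1)
    rw [orb_succ] at h3
    have h4 : ‖orb c k0 ^ 2‖ ≤ ‖orb c k0 ^ 2 + c‖ + ‖c‖ := by
      have := norm_sub_le (orb c k0 ^ 2 + c) c
      simpa using this
    rw [norm_pow] at h4
    linarith
  have h5 : ‖orb c k0‖ ≤ 2 := by
    have h6 : 0 ≤ ‖orb c k0‖ := norm_nonneg _
    by_contra hcon
    push Not at hcon
    nlinarith
  exact (hall k).trans h5

/-- bounded forward orbit -/
def Bd (c z : ℂ) : Prop := ∀ k, ‖(fun x : ℂ => x ^ 2 + c)^[k] z‖ ≤ 2

theorem Bd.step {c z : ℂ} (h : Bd c z) : Bd c (z ^ 2 + c) := by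
  intro k
  have := h (k + 1)
  rwa [Function.iterate_succ_apply] at this

theorem Bd.norm_le {c z : ℂ} (h : Bd c z) : ‖z‖ ≤ 2 := by
  simpa using h 0

theorem Bd_orb {c : ℂ} {n : ℕ} (hn : 0 < n) (h : orb c n = 0) (j : ℕ) : Bd c (orb c j) := by
  intro k
  have h1 : (fun x : ℂ => x ^ 2 + c)^[k] (orb c j) = orb c (k + j) := by
    rw [orb_eq_iterate c j, ← Function.iterate_add_apply, ← orb_eq_iterate]
  rw [h1]
  exact norm_orb_le hn h _

theorem exists_poly (c : ℂ) (a : ℕ) : ∃ p : ℂ[X], p.Monic ∧ p.natDegree = a ∧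
    ∀ z, Bd c z → ‖p.eval z‖ ≤ (a : ℝ) + 1 := by
  induction a using Nat.strong_induction_on with
  | _ a ih =>
    rcases Nat.eq_zero_or_pos a with rfl | ha
    · exact ⟨1, monic_one, natDegree_one, fun z _ => by simp⟩
    have hq : (X ^ 2 + C c : ℂ[X]).Monic := monic_X_pow_add_C c (by norm_num)
    have hqd : (X ^ 2 + C c : ℂ[X]).natDegree = 2 := natDegree_X_pow_add_C
    obtain ⟨p, hp, hpd, hpb⟩ := ih (a / 2) (by omega)
    have hcm : (p.comp (X ^ 2 + C c)).Monic := hp.comp hq (by rw [hqd]; norm_num)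
    have hcd : (p.comp (X ^ 2 + C c)).natDegree = a / 2 * 2 := by
      rw [natDegree_comp, hpd, hqd]
    have hev : ∀ z, (p.comp (X ^ 2 + C c)).eval z = p.eval (z ^ 2 + c) := by
      intro z; simp [eval_comp]
    rcases Nat.even_or_odd' a with ⟨b, rfl | rfl⟩
    · refine ⟨p.comp (X ^ 2 + C c), hcm, by rw [hcd]; omega, ?_⟩
      intro z hz
      rw [hev]
      have h1 := hpb _ hz.step
      have h2 : ((2 * b / 2 : ℕ) : ℝ) ≤ ((2 * b : ℕ) : ℝ) := by
        exact_mod_cast Nat.div_le_self _ _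
      linarith
    · refine ⟨X * p.comp (X ^ 2 + C c), monic_X.mul hcm, ?_, ?_⟩
      · rw [natDegree_mul X_ne_zero hcm.ne_zero, natDegree_X, hcd]; omega
      intro z hz
      rw [eval_mul, eval_X, hev, norm_mul]
      have h1 := hpb _ hz.step
      have h2 : (((2 * b + 1) / 2 : ℕ) : ℝ) = (b : ℝ) := by
        have : (2 * b + 1) / 2 = b := by omega
        rw [this]
      rw [h2] at h1
      have h3 := hz.norm_le
      calc ‖z‖ * ‖p.eval (z ^ 2 + c)‖ ≤ 2 * ((b : ℝ) + 1) := by
            apply mul_le_mul h3 h1 (norm_nonneg _) (by norm_num)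
        _ = ((2 * b + 1 : ℕ) : ℝ) + 1 := by push_cast; ring

/-- the Vandermonde determinant of points with bounded orbit -/
theorem norm_vandermonde_le (c : ℂ) {m : ℕ} (v : Fin m → ℂ) (hv : ∀ j, Bd c (v j)) :
    ‖(Matrix.vandermonde v).det‖ ≤ (m.factorial : ℝ) * (m : ℝ) ^ m := by
  choose p hp hpd hpb using exists_poly c
  rw [Matrix.det_eval_matrixOfPolynomials_eq_det_vandermonde v (fun j : Fin m => p j)
    (fun j => hpd j) (fun j => hp j)]
  have h := Matrix.det_le (A := Matrix.of (fun i j : Fin m => ((p j).eval (v i))))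
    (abv := IsAbsoluteValue.toAbsoluteValue (fun z : ℂ => ‖z‖)) (x := (m : ℝ)) (by
      intro i j
      simp only [Matrix.of_apply, IsAbsoluteValue.toAbsoluteValue, AbsoluteValue.coe_mk,
        MulHom.coe_mk]
      have h1 := hpb j (v i) (hv i)
      have h2 : ((j : ℕ) : ℝ) + 1 ≤ m := by
        have := j.2
        exact_mod_cast this
      exact h1.trans h2)
  simp only [IsAbsoluteValue.toAbsoluteValue, AbsoluteValue.coe_mk, MulHom.coe_mk,
    Fintype.card_fin, nsmul_eq_mul] at h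
  exact h

theorem monic_orb_X (k : ℕ) : (orb (X : ℤ[X]) (k + 1)).Monic ∧
    1 ≤ (orb (X : ℤ[X]) (k + 1)).natDegree := by
  induction k with
  | zero => rw [orb_one]; exact ⟨monic_X, by simp⟩
  | succ k ih =>
    rw [orb_succ]
    obtain ⟨h1, h2⟩ := ih
    have h3 : (orb (X : ℤ[X]) (k + 1) ^ 2).Monic := h1.pow 2
    have h4 : (orb (X : ℤ[X]) (k + 1) ^ 2).natDegree =
      2 * (orb (X : ℤ[X]) (k + 1)).natDegree := by rw [h1.natDegree_pow]
    have h5 : (X : ℤ[X]).degree < (orb (X : ℤ[X]) (k + 1) ^ 2).degree := by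
      rw [degree_X, degree_eq_natDegree h3.ne_zero, h4]
      have : 1 < 2 * (orb (X : ℤ[X]) (k + 1)).natDegree := by omega
      exact_mod_cast this
    refine ⟨h3.add_of_left h5, ?_⟩
    rw [natDegree_add_eq_left_of_degree_lt h5, h4]
    omega

theorem isIntegral_param {R : Type*} [CommRing R] {c : R} {n : ℕ} (hn : 0 < n)
    (h : orb c n = 0) : IsIntegral ℤ c := by
  obtain ⟨k, rfl⟩ : ∃ k, n = k + 1 := ⟨n - 1, by omega⟩
  refine ⟨orb (X : ℤ[X]) (k + 1), (monic_orb_X k).1, ?_⟩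
  have h1 : Polynomial.eval₂ (algebraMap ℤ R) c (orb (X : ℤ[X]) (k + 1)) =
    orb c (k + 1) := by
    have := map_orb (Polynomial.eval₂RingHom (algebraMap ℤ R) c) (X : ℤ[X]) (k + 1)
    simpa using this
  rw [h1, h]

theorem isIntegral_orb {R : Type*} [CommRing R] {c : R} (h : IsIntegral ℤ c) (k : ℕ) :
    IsIntegral ℤ (orb c k) := by
  induction k with
  | zero => rw [orb_zero]; exact isIntegral_zero
  | succ k ih => rw [orb_succ]; exact (ih.pow 2).add h

end Pool.Agent.H61G
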