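import Pool.Agent.Helper61_Gleason.Basic

/-! The norm of the Vandermonde determinant of a block of the critical orbit. -/

namespace Pool.Agent.H61G

open Polynomial Finset IntermediateField

/-- block of the critical orbit -/
def blk {R : Type*} [CommRing R] (c : R) (i m : ℕ) : Fin m → R := fun j => orb c (i + 1 + j)

theorem map_det_blk {R S : Type*} [CommRing R] [CommRing S] (φ : R →+* S) (c : R) (i m : ℕ) :
    φ (Matrix.vandermonde (blk c i m)).det = (Matrix.vandermonde (blk (φ c) i m)).det := by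
  rw [RingHom.map_det]
  congr 1
  ext a b
  simp [Matrix.vandermonde, blk, map_orb]

/-- main norm inequality -/
theorem one_le_norm_mul {c : ℂ} {n : ℕ} (hn : 0 < n) (h : orb c n = 0) (i m : ℕ)
    (hne : (Matrix.vandermonde (blk c i m)).det ≠ 0) :
    1 ≤ ‖(Matrix.vandermonde (blk c i m)).det‖ *
      ((m.factorial : ℝ) * (m : ℝ) ^ m) ^ ((minpoly ℚ c).natDegree - 1) := by
  classical
  have hint : IsIntegral ℤ c := isIntegral_param hn h
  have hintQ : IsIntegral ℚ c := hint.tower_top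
  have : FiniteDimensional ℚ ℚ⟮c⟯ := adjoin.finiteDimensional hintQ
  set g : ℚ⟮c⟯ := AdjoinSimple.gen ℚ c with hg
  have hgc : algebraMap ℚ⟮c⟯ ℂ g = c := AdjoinSimple.algebraMap_gen ℚ c
  have hg0 : orb g n = 0 := by
    apply (algebraMap ℚ⟮c⟯ ℂ).injective
    rw [map_orb, hgc, h, map_zero]
  have hgint : IsIntegral ℤ g := isIntegral_param hn hg0
  set V : ℚ⟮c⟯ := (Matrix.vandermonde (blk g i m)).det with hV
  have hVc : algebraMap ℚ⟮c⟯ ℂ V = (Matrix.vandermonde (blk c i m)).det := by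
    rw [hV, map_det_blk, hgc]
  have hV0 : V ≠ 0 := by
    intro h0
    apply hne
    rw [← hVc, h0, map_zero]
  have hVint : IsIntegral ℤ V := by
    apply IsIntegral.det
    intro a b
    simp only [Matrix.vandermonde, Matrix.of_apply, blk]
    exact (isIntegral_orb hgint _).pow _
  have hN : IsIntegral ℤ (Algebra.norm ℚ V) := Algebra.isIntegral_norm ℚ hVint
  obtain ⟨z, hz⟩ := IsIntegrallyClosed.isIntegral_iff.mp hN
  have hN0 : Algebra.norm ℚ V ≠ 0 := Algebra.norm_ne_zero_iff.mpr hV0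
  have hz0 : z ≠ 0 := by
    rintro rfl
    exact hN0 (by rw [← hz]; simp)
  have h1 : (1 : ℝ) ≤ ‖(algebraMap ℚ ℂ) (Algebra.norm ℚ V)‖ := by
    rw [← hz]
    have h2 : (algebraMap ℚ ℂ) ((algebraMap ℤ ℚ) z) = (z : ℂ) := by simp
    rw [h2, Complex.norm_intCast]
    have : (1 : ℤ) ≤ |z| := Int.one_le_abs hz0
    exact_mod_cast this
  rw [Algebra.norm_eq_prod_embeddings ℚ ℂ V, norm_prod] at h1
  let σ0 : ℚ⟮c⟯ →ₐ[ℚ] ℂ := IsScalarTower.toAlgHom ℚ ℚ⟮c⟯ ℂ
  have hσ0 : σ0 V = (Matrix.vandermonde (blk c i m)).det := hVc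
  rw [← Finset.mul_prod_erase univ (fun σ : ℚ⟮c⟯ →ₐ[ℚ] ℂ => ‖σ V‖) (mem_univ σ0), hσ0] at h1
  refine h1.trans (mul_le_mul_of_nonneg_left ?_ (norm_nonneg _))
  have hcard : (univ.erase σ0).card = (minpoly ℚ c).natDegree - 1 := by
    rw [Finset.card_erase_of_mem (mem_univ σ0), Finset.card_univ, AlgHom.card,
      adjoin.finrank hintQ]
  rw [← hcard, ← Finset.prod_const]
  refine Finset.prod_le_prod (fun σ _ => norm_nonneg _) (fun σ _ => ?_)
  have h3 : σ V = (Matrix.vandermonde (blk (σ g) i m)).det := by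
    have := map_det_blk (σ : ℚ⟮c⟯ →+* ℂ) g i m
    simpa using this
  rw [h3]
  have h4 : orb (σ g) n = 0 := by
    have := map_orb (σ : ℚ⟮c⟯ →+* ℂ) g n
    rw [hg0, map_zero] at this
    simpa using this.symm
  exact norm_vandermonde_le (σ g) _ (fun j => Bd_orb hn h4 _)

/-- contraction along a block -/
theorem block_contract {c : ℂ} {n : ℕ} (hn : 0 < n) (h : orb c n = 0) {ρ : ℝ} (hρ : 0 < ρ)
    {i m : ℕ}
    (hb : ∀ j k, i < j → j < k → k ≤ i + m → ρ ≤ ‖orb c j + orb c k‖) :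
    ∀ s j k, i < j → j < k → k + s = i + m + 1 → 0 < s →
      ‖orb c k - orb c j‖ ≤ 4 / ρ ^ s := by
  intro s
  induction s with
  | zero => intro j k _ _ _ h0; exact absurd h0 (lt_irrefl _)
  | succ s ih =>
    intro j k hij hjk hks _
    have hle : ‖orb c (k + 1) - orb c (j + 1)‖ ≤ 4 / ρ ^ s := by
      rcases Nat.eq_zero_or_pos s with rfl | hs
      · rw [pow_zero, div_one]
        calc ‖orb c (k + 1) - orb c (j + 1)‖ ≤ ‖orb c (k + 1)‖ + ‖orb c (j + 1)‖ :=
              norm_sub_le _ _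
          _ ≤ 2 + 2 := add_le_add (norm_orb_le hn h _) (norm_orb_le hn h _)
          _ = 4 := by norm_num
      · exact ih (j + 1) (k + 1) (by omega) (by omega) (by omega) hs
    have hfac : orb c (k + 1) - orb c (j + 1) = (orb c k - orb c j) * (orb c j + orb c k) := by
      rw [orb_succ, orb_succ]; ring
    rw [hfac, norm_mul] at hle
    have hbb := hb j k hij hjk (by omega)
    have h1 : ‖orb c k - orb c j‖ * ρ ≤ 4 / ρ ^ s :=
      (mul_le_mul_of_nonneg_left hbb (norm_nonneg _)).trans hle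
    rw [pow_succ, ← div_div]
    rwa [le_div_iff₀ hρ]

/-- the double product over a triangle -/
theorem tri_prod (ρ : ℝ) (hρ : 0 < ρ) (m : ℕ) :
    0 < (∏ i : Fin m, ∏ j ∈ Ioi i, (4 / ρ ^ (m - (j : ℕ)))) ∧
    Real.log (∏ i : Fin m, ∏ j ∈ Ioi i, (4 / ρ ^ (m - (j : ℕ)))) =
      Real.log 4 * ((m : ℝ) * ((m : ℝ) - 1) / 2) -
      Real.log ρ * (((m : ℝ) - 1) * m * ((m : ℝ) + 1) / 6) := by
  induction m with
  | zero => simp
  | succ m ih =>
    obtain ⟨hpos, hlog⟩ := ih
    rw [Fin.prod_univ_succ, Fin.prod_Ioi_zero]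
    simp_rw [Fin.prod_Ioi_succ, Fin.val_succ, Nat.add_sub_add_right]
    have hrow : ∀ m : ℕ, 0 < (∏ j : Fin m, (4 / ρ ^ (m - (j : ℕ)))) ∧
        Real.log (∏ j : Fin m, (4 / ρ ^ (m - (j : ℕ)))) =
        Real.log 4 * m - Real.log ρ * ((m : ℝ) * ((m : ℝ) + 1) / 2) := by
      intro m
      induction m with
      | zero => simp
      | succ m ih2 =>
        obtain ⟨hp2, hl2⟩ := ih2
        rw [Fin.prod_univ_succ]
        simp_rw [Fin.val_succ, Nat.add_sub_add_right]
        have h4 : (0 : ℝ) < 4 / ρ ^ (m + 1 - ((0 : Fin (m + 1)) : ℕ)) := by positivity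
        refine ⟨mul_pos h4 hp2, ?_⟩
        rw [Real.log_mul h4.ne' hp2.ne', hl2, Real.log_div (by norm_num) (by positivity),
          Real.log_pow]
        simp only [Fin.val_zero, Nat.sub_zero]
        push_cast
        ring
    obtain ⟨hp3, hl3⟩ := hrow m
    refine ⟨mul_pos hp3 hpos, ?_⟩
    rw [Real.log_mul hp3.ne' hpos.ne', hl3, hlog]
    push_cast
    ring

end Pool.Agent.H61G
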