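import Pool.Agent.Helper61_Gleason.Basic

/-! Many real centers close to `-2`. -/

namespace Pool.Agent.H61G

open Finset

/-- `x` lies strictly between `a` and `b` -/
def Btw (a x b : ℝ) : Prop := (a < x ∧ x < b) ∨ (b < x ∧ x < a)

theorem continuous_orb (k : ℕ) : Continuous (fun c : ℝ => orb c k) := by
  induction k with
  | zero => simpa [orb_zero] using continuous_const
  | succ k ih =>
    simp only [orb_succ]
    exact (ih.pow 2).add continuous_id

theorem nearest_zero_lt (g : ℝ → ℝ) (hg : Continuous g) {u z : ℝ} (huz : u < z)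
    (hu : 0 < g u) (hz : g z < 0) :
    ∃ w, u < w ∧ w < z ∧ g w = 0 ∧ ∀ x, u < x → x < w → g x ≠ 0 := by
  set Z : Set ℝ := Set.Icc u z ∩ g ⁻¹' {0} with hZ
  have hZc : IsClosed Z := isClosed_Icc.inter (isClosed_singleton.preimage hg)
  have hZne : Z.Nonempty := by
    have h0 : (0 : ℝ) ∈ Set.Icc (g z) (g u) := ⟨hz.le, hu.le⟩
    obtain ⟨x, hx, hx0⟩ := intermediate_value_Icc' huz.le hg.continuousOn h0
    exact ⟨x, hx, hx0⟩
  have hZb : BddBelow Z := ⟨u, fun x hx => hx.1.1⟩
  have hmem : sInf Z ∈ Z := hZc.csInf_mem hZne hZb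
  obtain ⟨⟨h1, h2⟩, h3⟩ := hmem
  have h3' : g (sInf Z) = 0 := h3
  refine ⟨sInf Z, ?_, ?_, h3', ?_⟩
  · rcases h1.lt_or_eq with h | h
    · exact h
    · rw [← h] at h3'; exact absurd h3' hu.ne'
  · rcases h2.lt_or_eq with h | h
    · exact h
    · rw [h] at h3'; exact absurd h3' hz.ne
  · intro x hx1 hx2 hx0
    have : sInf Z ≤ x := csInf_le hZb ⟨⟨hx1.le, (hx2.trans_le h2).le⟩, hx0⟩
    exact absurd hx2 (not_lt.mpr this)

theorem nearest_zero (g : ℝ → ℝ) (hg : Continuous g) {u z : ℝ}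
    (hu : 0 < g u) (hz : g z < 0) :
    ∃ w, Btw u w z ∧ g w = 0 ∧ ∀ x, Btw u x w → g x ≠ 0 := by
  rcases lt_trichotomy u z with h | h | h
  · obtain ⟨w, h1, h2, h3, h4⟩ := nearest_zero_lt g hg h hu hz
    refine ⟨w, Or.inl ⟨h1, h2⟩, h3, ?_⟩
    rintro x (⟨h5, h6⟩ | ⟨h5, h6⟩)
    · exact h4 x h5 h6
    · exact absurd (h5.trans h6) (not_lt.mpr h1.le)
  · subst h; exact absurd (hu.trans hz) (lt_irrefl _)
  · obtain ⟨w, h1, h2, h3, h4⟩ := nearest_zero_lt (fun x => g (-x)) (hg.comp continuous_neg)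
      (u := -u) (z := -z) (by linarith) (by simpa using hu) (by simpa using hz)
    refine ⟨-w, Or.inr ⟨by linarith, by linarith⟩, h3, ?_⟩
    rintro x (⟨h5, h6⟩ | ⟨h5, h6⟩)
    · exact absurd (h5.trans h6) (not_lt.mpr (by linarith))
    · have := h4 (-x) (by linarith) (by linarith)
      simpa using this

/-- the tip centers -/
def Tip (k : ℕ) (ck : ℝ) : Prop :=
  -2 < ck ∧ ck ≤ -1 ∧ orb ck k = 0 ∧ (∀ j, 2 ≤ j → j < k → ∀ x, -2 ≤ x → x ≤ ck → 0 < orb x j) ∧
    ∀ x, -2 ≤ x → x < ck → 0 < orb x k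

theorem orb_neg_two (k : ℕ) : orb (-2 : ℝ) (k + 2) = 2 := by
  induction k with
  | zero => norm_num [orb_succ, orb_zero]
  | succ k ih => rw [show k + 1 + 2 = (k + 2) + 1 by ring, orb_succ, ih]; norm_num

theorem exists_tip (k : ℕ) : ∃ ck, Tip (k + 2) ck := by
  induction k with
  | zero =>
    refine ⟨-1, by norm_num, le_refl _, by norm_num [orb_succ, orb_zero], ?_, ?_⟩
    · intro j h1 h2; omega
    · intro x h1 h2
      simp only [zero_add, orb_succ, orb_zero]
      nlinarith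
  | succ k ih =>
    obtain ⟨c, h1, h2, h3, h4, h5⟩ := ih
    have hu : 0 < orb (-2 : ℝ) (k + 3) := by rw [orb_neg_two (k + 1)]; norm_num
    have hz : orb c (k + 3) < 0 := by
      rw [show k + 3 = (k + 2) + 1 by ring, orb_succ, h3]; linarith
    obtain ⟨w, hw1, hw2, hw3, hw4⟩ := nearest_zero_lt (fun x => orb x (k + 3))
      (continuous_orb _) h1 hu hz
    refine ⟨w, hw1, by linarith, hw3, ?_, ?_⟩
    · intro j hj1 hj2 x hx1 hx2
      rcases Nat.lt_or_ge j (k + 2) with h | h
      · exact h4 j hj1 h x hx1 (by linarith)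
      · have : j = k + 2 := by omega
        subst this
        exact h5 x hx1 (by linarith)
    · intro x hx1 hx2
      rcases hx1.lt_or_eq with h | h
      · by_contra hcon
        push Not at hcon
        have h0 : (0 : ℝ) ∈ Set.Icc (orb x (k + 3)) (orb (-2 : ℝ) (k + 3)) := ⟨hcon, hu.le⟩
        obtain ⟨y, hy, hy0⟩ := intermediate_value_Icc' h.le
          (continuous_orb (k + 3)).continuousOn h0
        have hy1 : -2 < y := by
          rcases hy.1.lt_or_eq with h' | h'
          · exact h'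
          · rw [← h'] at hy0; exact absurd hy0 hu.ne'
        exact hw4 y hy1 (lt_of_le_of_lt hy.2 hx2) hy0
      · rw [← h]; exact hu

theorem Btw.mem {a x b l r : ℝ} (h : Btw a x b) (ha1 : l ≤ a) (ha2 : a ≤ r) (hb1 : l ≤ b)
    (hb2 : b ≤ r) : l ≤ x ∧ x ≤ r := by
  rcases h with ⟨h1, h2⟩ | ⟨h1, h2⟩ <;> constructor <;> linarith

theorem Btw.sub {u x w z : ℝ} (hw : Btw u w z) (hx : Btw u x w) : Btw u x z := by
  rcases hw with ⟨h1, h2⟩ | ⟨h1, h2⟩ <;> rcases hx with ⟨h3, h4⟩ | ⟨h3, h4⟩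
  · exact Or.inl ⟨h3, h4.trans h2⟩
  · exact absurd (h3.trans h4) (not_lt.mpr h1.le)
  · exact absurd (h3.trans h4) (not_lt.mpr h2.le)
  · exact Or.inr ⟨h1.trans h3, h4⟩

theorem Btw.symm {a x b : ℝ} (h : Btw a x b) : Btw b x a := h.elim Or.inr Or.inl

theorem Btw.disj {u z w w' x : ℝ} (hw : Btw u w z) (hw' : Btw z w' u) (hn : ¬ Btw u w' w)
    (h1 : Btw u x w) (h2 : Btw z x w') : False := by
  unfold Btw at *
  push Not at hn
  obtain ⟨hn1, hn2⟩ := hn
  rcases hw with ⟨a1, a2⟩ | ⟨a1, a2⟩ <;> rcases hw' with ⟨b1, b2⟩ | ⟨b1, b2⟩ <;>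
    rcases h1 with ⟨c1, c2⟩ | ⟨c1, c2⟩ <;> rcases h2 with ⟨d1, d2⟩ | ⟨d1, d2⟩ <;>
    first
      | linarith
      | (have := hn1 (by linarith); linarith)
      | (have := hn2 (by linarith); linarith)

/-- the tree of real centers -/
theorem tree {k : ℕ} (hk : 3 ≤ k) {ck : ℝ} (hT : Tip k ck) :
    ∀ L, 1 ≤ L → ∀ a, 1 ≤ a → a ≤ k - 2 → ∀ j, ∀ u z : ℝ, -2 ≤ u → u ≤ ck → -2 ≤ z → z ≤ ck →
      orb z j = 0 → a ≤ j → orb u (j - a) = 0 →
      (∀ x, Btw u x z → ∀ i, k ≤ i → i ≤ j → orb x i ≠ 0) →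
      ∃ S : Finset ℝ, 2 ^ (L - 1 - (L + a - 2) / (k - 2)) ≤ S.card ∧
        ∀ x ∈ S, Btw u x z ∧ orb x (j + L) = 0 ∧ ∀ i, k ≤ i → i < j + L → orb x i ≠ 0 := by
  obtain ⟨t1, t2, t3, t4, t5⟩ := hT
  intro L
  induction L with
  | zero => intro h; omega
  | succ L ih =>
    intro _ a ha1 ha2 j u z hu1 hu2 hz1 hz2 hzj haj huj hint
    have hgz : orb z (j + 1) < 0 := by rw [orb_succ, hzj]; linarith
    have hgu : 0 < orb u (j + 1) := by
      rw [show j + 1 = (a + 1) + (j - a) by omega, orb_add_period huj]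
      exact t4 (a + 1) (by omega) (by omega) u hu1 hu2
    obtain ⟨w, hw1, hw2, hw3⟩ := nearest_zero (fun x => orb x (j + 1)) (continuous_orb _) hgu hgz
    rcases Nat.eq_zero_or_pos L with rfl | hL
    · refine ⟨{w}, ?_, ?_⟩
      · have : (0 + 1 + a - 2) / (k - 2) = 0 := Nat.div_eq_of_lt (by omega)
        rw [this]; simp
      · intro x hx
        rw [Finset.mem_singleton] at hx
        subst hx
        exact ⟨hw1, hw2, fun i hi1 hi2 => hint x hw1 i hi1 (by omega)⟩
    obtain ⟨w', hw'1, hw'2, hw'3⟩ := nearest_zero (fun x => - orb x (j + 1))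
      (continuous_orb _).neg (u := z) (z := u) (by linarith) (by linarith)
    have hw'2' : orb w' (j + 1) = 0 := by linarith
    obtain ⟨hwm1, hwm2⟩ := hw1.mem hu1 hu2 hz1 hz2
    obtain ⟨hwm1', hwm2'⟩ := hw'1.mem hz1 hz2 hu1 hu2
    -- child 2: keep the new end point
    obtain ⟨S2, hS2c, hS2⟩ := ih hL 1 (le_refl _) (by omega) (j + 1) z w' hz1 hz2 hwm1' hwm2'
      hw'2' (by omega) (by simpa using hzj) (by
        intro x hx i hi1 hi2
        rcases Nat.lt_or_ge i (j + 1) with h | h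
        · exact hint x ((hw'1.sub hx).symm) i hi1 (by omega)
        · have : i = j + 1 := by omega
          subst this
          intro h0
          exact hw'3 x hx (by simp [h0]))
    have hS2' : ∀ x ∈ S2, Btw u x z ∧ orb x (j + (L + 1)) = 0 ∧
        ∀ i, k ≤ i → i < j + (L + 1) → orb x i ≠ 0 := by
      intro x hx
      obtain ⟨h1, h2, h3⟩ := hS2 x hx
      refine ⟨(hw'1.sub h1).symm, ?_, ?_⟩
      · rw [show j + (L + 1) = j + 1 + L by ring]; exact h2
      · intro i hi1 hi2
        exact h3 i hi1 (by omega)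
    rcases Nat.lt_or_ge a (k - 2) with hak | hak
    · -- child 1: keep the old end point
      obtain ⟨S1, hS1c, hS1⟩ := ih hL (a + 1) (by omega) (by omega) (j + 1) u w hu1 hu2 hwm1 hwm2
        hw2 (by omega) (by rw [show j + 1 - (a + 1) = j - a by omega]; exact huj) (by
          intro x hx i hi1 hi2
          rcases Nat.lt_or_ge i (j + 1) with h | h
          · exact hint x (hw1.sub hx) i hi1 (by omega)
          · have : i = j + 1 := by omega
            subst this
            exact hw3 x hx)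
      have hdisj : Disjoint S1 S2 := by
        rw [Finset.disjoint_left]
        intro x hx1 hx2
        exact Btw.disj hw1 hw'1 (fun hb => hw3 w' hb hw'2') (hS1 x hx1).1 (hS2 x hx2).1
      refine ⟨S1 ∪ S2, ?_, ?_⟩
      · rw [Finset.card_union_of_disjoint hdisj]
        have e1 : L + 1 - 1 - (L + 1 + a - 2) / (k - 2) =
            (L - 1 - (L + (a + 1) - 2) / (k - 2)) + 1 ∨
            L + 1 - 1 - (L + 1 + a - 2) / (k - 2) = 0 := by
          rw [show L + (a + 1) - 2 = L + 1 + a - 2 by omega]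
          rcases Nat.lt_or_ge ((L + 1 + a - 2) / (k - 2)) L with h | h
          · left; omega
          · right; omega
        have e2 : L - 1 - (L + (a + 1) - 2) / (k - 2) ≤ L - 1 - (L + 1 - 2) / (k - 2) := by
          have : (L + 1 - 2) / (k - 2) ≤ (L + (a + 1) - 2) / (k - 2) :=
            Nat.div_le_div_right (by omega)
          omega
        have e3 : 2 ^ (L - 1 - (L + (a + 1) - 2) / (k - 2)) ≤ S2.card :=
          (Nat.pow_le_pow_right (by norm_num) e2).trans hS2c
        rcases e1 with e1 | e1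
        · rw [e1, pow_succ]; omega
        · rw [e1, pow_zero]
          have : 1 ≤ 2 ^ (L - 1 - (L + (a + 1) - 2) / (k - 2)) := Nat.one_le_two_pow
          omega
      · intro x hx
        rcases Finset.mem_union.mp hx with hx | hx
        · obtain ⟨h1, h2, h3⟩ := hS1 x hx
          refine ⟨hw1.sub h1, ?_, ?_⟩
          · rw [show j + (L + 1) = j + 1 + L by ring]; exact h2
          · intro i hi1 hi2
            exact h3 i hi1 (by omega)
        · exact hS2' x hx
    · refine ⟨S2, ?_, hS2'⟩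
      have hae : a = k - 2 := by omega
      have e1 : (L + 1 + a - 2) / (k - 2) = (L + 1 - 2) / (k - 2) + 1 := by
        rw [hae, show L + 1 + (k - 2) - 2 = (L + 1 - 2) + (k - 2) by omega,
          Nat.add_div_right _ (by omega)]
      rw [e1]
      have e2 : L + 1 - 1 - ((L + 1 - 2) / (k - 2) + 1) = L - 1 - (L + 1 - 2) / (k - 2) := by
        omega
      rw [e2]
      exact hS2c

/-- many real centers of exact period `n` close to `-2` -/
theorem many_centers (k n : ℕ) (hk : 3 ≤ k) (hn : k + 2 ≤ n) :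
    ∃ S : Finset ℝ, 2 ^ (n - k - 2 - (n - k - 2) / (k - 2)) ≤ S.card ∧
      ∀ x ∈ S, -2 < x ∧ x < -1 ∧ orb x n = 0 ∧ (∀ i, 1 ≤ i → i < n → orb x i ≠ 0) ∧
        ∀ j, 2 ≤ j → j < k → 1 ≤ orb x j := by
  obtain ⟨ck, hT⟩ : ∃ ck, Tip k ck := by
    have := exists_tip (k - 2)
    rwa [show k - 2 + 2 = k by omega] at this
  have hT' := hT
  obtain ⟨t1, t2, t3, t4, t5⟩ := hT
  have hz : 0 < - orb ck (k + 1) := by rw [orb_succ, t3]; linarith
  have hu : - orb (-2 : ℝ) (k + 1) < 0 := by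
    rw [show k + 1 = (k - 1) + 2 by omega, orb_neg_two]; norm_num
  obtain ⟨w, hw1, hw2, hw3⟩ := nearest_zero (fun x => - orb x (k + 1))
    (continuous_orb _).neg hz hu
  have hw2' : orb w (k + 1) = 0 := by linarith
  obtain ⟨hm1, hm2⟩ := hw1.mem t1.le (le_refl _) (le_refl _) t1.le
  obtain ⟨S, hS1, hS2⟩ := tree hk hT' (n - k - 1) (by omega) 1 (le_refl _) (by omega) (k + 1)
    ck w t1.le (le_refl _) hm1 hm2 hw2' (by omega) (by simpa using t3) (by
      intro x hx i hi1 hi2
      rcases Nat.lt_or_ge i (k + 1) with h | h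
      · have : i = k := by omega
        subst this
        have hb := hw1.sub hx
        rcases hb with ⟨h1, h2⟩ | ⟨h1, h2⟩
        · linarith
        · exact (t5 x h1.le h2).ne'
      · have : i = k + 1 := by omega
        subst this
        intro h0
        exact hw3 x hx (by simp [h0]))
  refine ⟨S, ?_, ?_⟩
  · have e : n - k - 1 - 1 - (n - k - 1 + 1 - 2) / (k - 2) =
      n - k - 2 - (n - k - 2) / (k - 2) := by
      rw [show n - k - 1 + 1 - 2 = n - k - 2 by omega, show n - k - 1 - 1 = n - k - 2 by omega]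
    rw [e] at hS1
    exact hS1
  · intro x hx
    obtain ⟨h1, h2, h3⟩ := hS2 x hx
    have hb := hw1.sub h1
    have hxr : -2 < x ∧ x < ck := by
      rcases hb with ⟨h4, h5⟩ | ⟨h4, h5⟩
      · exact absurd (h4.trans h5) (not_lt.mpr t1.le)
      · exact ⟨h4, h5⟩
    have hn0 : orb x n = 0 := by
      rw [show k + 1 + (n - k - 1) = n by omega] at h2; exact h2
    have hpos : ∀ j, 2 ≤ j → j ≤ k → 0 < orb x j := by
      intro j hj1 hj2
      rcases Nat.lt_or_ge j k with h | h
      · exact t4 j hj1 h x hxr.1.le hxr.2.le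
      · have : j = k := by omega
        subst this
        exact t5 x hxr.1.le hxr.2
    refine ⟨hxr.1, by linarith, hn0, ?_, ?_⟩
    · intro i hi1 hi2
      rcases Nat.lt_or_ge i k with h | h
      · rcases Nat.lt_or_ge i 2 with h' | h'
        · have : i = 1 := by omega
          subst this
          rw [orb_one]; linarith
        · exact (hpos i h' h.le).ne'
      · exact h3 i h (by omega)
    · intro j hj1 hj2
      have h4 := hpos j hj1 hj2.le
      have h5 := hpos (j + 1) (by omega) (by omega)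
      rw [orb_succ] at h5
      nlinarith

end Pool.Agent.H61G
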